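import Pool.Agent.H98.BR.Dn
import Pool.Agent.H10.BT.Fin
import Pool.Agent.H98.DT.Cl

/-!
# Artin groups of affine type `B` and `D` are in the class
-/

set_option autoImplicit false

namespace Pool.Agent.H98.BR

open Pool.Agent.H52.PAG Pool.Agent.H98.FJ Pool.Agent.H10.DT Pool.Agent.H10.BT
open Pool.Agent.H98.DT (pl cmD cmD_apply lD cmT art_cmT_mem)

variable {C : (G : Type) → [Group G] → Prop} (hC : Inherits C) (hE : Extension C) (hF : FreeByZ C)
include hC hE hF

omit hC hE hF in
theorem bf_lab (m : ℕ) (x y : Fin (m + 3)) :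
    cmB (m + 2) (finSuccEquiv (m + 2) x) (finSuccEquiv (m + 2) y) = cmBf m x y := by
  rw [cmB_apply, cmBf_apply]
  refine Fin.cases ?_ (fun k => ?_) x <;> refine Fin.cases ?_ (fun l => ?_) y
  · rw [finSuccEquiv_zero]
    rfl
  · rw [finSuccEquiv_zero, finSuccEquiv_succ]
    change (if l.val = 0 then 4 else 2) = H10.BT.lB 0 (l.val + 1)
    simp only [H10.BT.lB]
    split_ifs <;> first | contradiction | omega | (simp_all)
  · rw [finSuccEquiv_zero, finSuccEquiv_succ]
    change (if k.val = 0 then 4 else 2) = H10.BT.lB (k.val + 1) 0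
    simp only [H10.BT.lB]
    split_ifs <;> first | contradiction | omega | (simp_all)
  · rw [finSuccEquiv_succ, finSuccEquiv_succ]
    change pl k.val l.val = H10.BT.lB (k.val + 1) (l.val + 1)
    simp only [H10.BT.lB, pl]
    split_ifs <;> first | contradiction | omega | (simp_all)

/-- type `B` -/
theorem bf_mem (m : ℕ) : C (Art (cmBf m)) :=
  Pool.Agent.H52.DT.art_mem_congr hC _ _ (finSuccEquiv (m + 2)) (bf_lab m) (bn_mem hC hE hF (m + 2))

omit hC hE hF in
theorem df_lab (x y : Option (Fin 2)) : cmP 3 ((finSuccEquiv 2).symm x) ((finSuccEquiv 2).symm y) = cmDf 0 x y := by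
  revert x y
  decide

/-- type `D` -/
theorem df_mem (m : ℕ) : C (Art (cmDf m)) := by
  rcases m with _ | n
  · exact Pool.Agent.H52.DT.art_mem_congr hC _ _ (finSuccEquiv 2).symm df_lab (an_mem hC hE hF 3)
  · exact Pool.Agent.H52.DT.art_mem_congr hC _ _ (Equiv.refl _) (fun _ _ => rfl) (dn_mem' n hC hE hF)

/-- affine type `B` -/
theorem bt_mem (m : ℕ) : C (Art (cmBt m)) := art_cmBt_mem hC hE hF m (bf_mem hC hE hF m) (df_mem hC hE hF m)

/-- affine type `D` -/
theorem dt_mem (n : ℕ) : C (Art (cmT n)) := art_cmT_mem hC hE hF n (dn_mem n hC hE hF) (dn_mem' n hC hE hF)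

end Pool.Agent.H98.BR
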