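import Pool.Agent.H98.BR.Mo

/-!
# Artin groups of type `A` and `B` are in the class

`r j = b (j - 1) * ⋯ * b 0`; `b i * r j = r (sw i j) * jm (hh i j)`, where `jm` maps the generators of the Artin group of type `B` to
`b 1`, `b 2`, …, and `(b 0)²`. So an element which fixes the position `0` is the image of its coefficient.
-/

set_option autoImplicit false

namespace Pool.Agent.H98.BR

open Pool.Agent.H52.PAG Pool.Agent.H98.FJ Pool.Agent.H10.DT
open Pool.Agent.H98.DT (BS)

variable (p : ℕ)

theorem tb_jm : TB p (fun k => gP (p + 1) (k + 1)) (gP (p + 1) 0 * gP (p + 1) 0) where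
  br k h := (bs_gP (p + 1)).br (k + 1) (by omega)
  co k l h h' := (bs_gP (p + 1)).co (k + 1) (l + 1) (by omega) (by omega)
  sb k h h' := by
    have h1 : Commute (gP (p + 1) (k + 1)) (gP (p + 1) 0) :=
      ((bs_gP (p + 1)).co 0 (k + 1) (by omega) (by omega)).symm
    exact h1.mul_right h1
  sB h := by
    have h1 := (bs_gP (p + 1)).br 0 (by omega)
    change gP (p + 1) (0 + 1) * (gP (p + 1) 0 * gP (p + 1) 0) * gP (p + 1) (0 + 1) * (gP (p + 1) 0 * gP (p + 1) 0) =
      (gP (p + 1) 0 * gP (p + 1) 0) * gP (p + 1) (0 + 1) * (gP (p + 1) 0 * gP (p + 1) 0) * gP (p + 1) (0 + 1)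
    generalize gP (p + 1) (0 + 1) = c at *
    generalize gP (p + 1) 0 = b at *
    have h2 : b * (c * b * b * c) = c * b * b * c * b := by
      calc b * (c * b * b * c) = (b * c * b) * b * c := by group
        _ = c * b * (c * b * c) := by
          rw [h1]
          group
        _ = _ := by
          rw [← h1]
          group
    calc c * (b * b) * c * (b * b) = (c * b * b * c * b) * b := by group
      _ = (b * (c * b * b * c)) * b := by rw [h2]
      _ = b * (c * b * b * c * b) := by group
      _ = b * (b * (c * b * b * c)) := by rw [h2]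
      _ = _ := by group

/-- the homomorphism from the Artin group of type `B` -/
def jm : Art (cmB p) →* Art (cmP (p + 1)) := liftB (tb_jm p)

theorem jm_gB {k : ℕ} (h : k < p) : jm p (gB p k) = gP (p + 1) (k + 1) := by
  rw [gB_lt p h]
  exact liftB_some (tb_jm p) ⟨k, h⟩

theorem jm_xB {k : ℕ} (h : k ≤ p) :
    jm p (xB p k) = sf (gP (p + 1) 0 * gP (p + 1) 0) (fun k => gP (p + 1) (k + 1)) k := by
  induction k with
  | zero =>
    rw [xB, sf_zero, sf_zero]
    exact liftB_none _
  | succ k ih =>
    have h1 := ih (by omega)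
    rw [xB] at h1 ⊢
    rw [sf_succ, sf_succ, map_mul, map_mul, map_inv, h1, jm_gB p (by omega)]

/-- the coset representatives -/
def rj : ℕ → Art (cmP (p + 1))
  | 0 => 1
  | j + 1 => gP (p + 1) j * rj j

theorem rj_zero : rj p 0 = 1 := rfl

theorem rj_succ (j : ℕ) : rj p (j + 1) = gP (p + 1) j * rj p j := rfl

theorem rj_comm {i j : ℕ} (h : j < i) (hi : i < p + 1) : gP (p + 1) i * rj p j = rj p j * gP (p + 1) i := by
  induction j with
  | zero => simp [rj_zero]
  | succ j ih =>
    have h1 := (bs_gP (p + 1)).co j i (by omega) hi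
    rw [rj_succ, ← mul_assoc, ← h1, mul_assoc, ih (by omega), mul_assoc]

theorem rj_down {i j : ℕ} (h : i + 1 < j) (hj : j < p + 2) :
    gP (p + 1) i * rj p j = rj p j * gP (p + 1) (i + 1) := by
  obtain ⟨l, rfl⟩ : ∃ l, j = i + 2 + l := ⟨j - i - 2, by omega⟩
  induction l with
  | zero =>
    have h1 := (bs_gP (p + 1)).br i (by omega)
    have h2 := rj_comm p (i := i + 1) (j := i) (by omega) (by omega)
    rw [add_zero, rj_succ, rj_succ]
    calc gP (p + 1) i * (gP (p + 1) (i + 1) * (gP (p + 1) i * rj p i))
        = (gP (p + 1) i * gP (p + 1) (i + 1) * gP (p + 1) i) * rj p i := by group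
      _ = gP (p + 1) (i + 1) * gP (p + 1) i * (gP (p + 1) (i + 1) * rj p i) := by
        rw [h1]
        group
      _ = _ := by
        rw [h2]
        group
  | succ l ih =>
    have h1 := (bs_gP (p + 1)).co i (i + 2 + l) (by omega) (by omega)
    rw [← add_assoc, rj_succ, ← mul_assoc, h1, mul_assoc, ih (by omega) (by omega), mul_assoc]

theorem rj_sq {i : ℕ} (h : i ≤ p) : gP (p + 1) i * rj p (i + 1) = rj p i * jm p (xB p i) := by
  rw [jm_xB p h]
  induction i with
  | zero => rw [rj_succ, rj_zero, sf_zero, one_mul, mul_one]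
  | succ i ih =>
    have h1 := (bs_gP (p + 1)).br i (by omega)
    have h2 := rj_comm p (i := i + 1) (j := i) (by omega) (by omega)
    have h3 := ih (by omega)
    rw [rj_succ] at h3
    rw [sf_succ, rj_succ, rj_succ]
    generalize sf (gP (p + 1) 0 * gP (p + 1) 0) (fun k => gP (p + 1) (k + 1)) i = y at *
    generalize rj p i = r at *
    generalize gP (p + 1) (i + 1) = c at *
    generalize gP (p + 1) i = b at *
    -- `c c b r = b r c y c⁻¹`, from `b b r = r y` and `c r = r c`
    have h4 : b * r * c * y = c * c * b * r * c := by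
      calc b * r * c * y = b * (r * c) * y := by group
        _ = b * c * (r * y) := by
          rw [← h2]
          group
        _ = (b * c * b) * b * r := by
          rw [← h3]
          group
        _ = (c * b * c) * b * r := by rw [h1]
        _ = c * (b * c * b) * r := by group
        _ = c * (c * b * c) * r := by rw [h1]
        _ = c * c * b * (c * r) := by group
        _ = _ := by
          rw [h2]
          group
    calc c * (c * (b * r)) = (c * c * b * r * c) * c⁻¹ := by group
      _ = _ := by
        rw [← h4]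
        group

/-- the generators and the coset representatives -/
theorem gP_rj {i j : ℕ} (hi : i < p + 1) (hj : j < p + 2) :
    gP (p + 1) i * rj p j = rj p (sw i j) * jm p (hh p i j) := by
  by_cases h1 : j = i
  · rw [h1, sw_0, hh_0, map_one, mul_one, rj_succ]
  · by_cases h2 : j = i + 1
    · subst h2
      rw [sw_1, hh_1 p hj, rj_sq p (by omega)]
    · rw [sw_ne h1 h2]
      rcases Nat.lt_or_ge j i with h3 | h3
      · obtain ⟨i, rfl⟩ : ∃ i', i = i' + 1 := ⟨i - 1, by omega⟩
        rw [hh_gt p (by omega) hj, jm_gB p (by omega), rj_comm p h3 hi]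
      · rw [hh_lt p (by omega) hj, jm_gB p (by omega), rj_down p (by omega) hj]

theorem sw_lt {i j : ℕ} (hi : i < p + 1) (hj : j < p + 2) : sw i j < p + 2 := by
  simp only [sw]
  split_ifs <;> omega

/-- all elements and the coset representatives -/
theorem mul_rj (u : Art (cmP (p + 1))) {j : ℕ} (hj : j < p + 2) : u * rj p j = rj p (ps p u j) * jm p (co p u j) := by
  induction u using art_induction generalizing j with
  | h1 => rw [one_mul, ps_one, co_one, map_one, mul_one]
  | h2 u i ih =>
    have h1 : ps p (gen _ i) j = sw i j := by rw [ps, mo_gen, pmo_apply]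
    have h2 : co p (gen _ i) j = hh p i j := by rw [co, mo_gen, pmo_apply, mul_one]
    rw [ps_mul, co_mul, h1, h2, map_mul, ← mul_assoc, ← ih (sw_lt p i.2 hj), mul_assoc, ← gP_fin,
      gP_rj p i.2 hj, mul_assoc]
  | h3 u i ih =>
    have h1 : ps p (gen _ i)⁻¹ j = sw i j := by rw [ps, map_inv, mo_gen, pmo_inv_apply]
    have h2 : co p (gen _ i)⁻¹ j = (hh p i (sw i j))⁻¹ := by rw [co, map_inv, mo_gen, pmo_inv_apply, mul_one]
    have h3 := gP_rj p i.2 (sw_lt p i.2 hj)
    rw [sw_sw, gP_fin] at h3
    rw [ps_mul, co_mul, h1, h2, map_mul, ← mul_assoc, ← ih (sw_lt p i.2 hj), map_inv, mul_assoc, mul_assoc]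
    congr 1
    rw [inv_mul_eq_iff_eq_mul, ← mul_assoc, h3, mul_inv_cancel_right]

/-- the elements which fix the position `0` -/
def H0 : Subgroup (Art (cmP (p + 1))) where
  carrier := {u | ps p u 0 = 0}
  one_mem' := ps_one p 0
  mul_mem' := by
    intro u v hu hv
    change ps p (u * v) 0 = 0
    rw [ps_mul, hv, hu]
  inv_mem' := by
    intro u hu
    change ps p u⁻¹ 0 = 0
    have h1 := ps_mul p u⁻¹ u 0
    rw [inv_mul_cancel, ps_one, (show ps p u 0 = 0 from hu)] at h1
    exact h1.symm

theorem H0_finite : (H0 p).FiniteIndex := by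
  have h1 : Finite (Art (cmP (p + 1)) ⧸ H0 p) := by
    refine Finite.of_injective (β := Fin (p + 2)) (Quotient.lift (fun u => ⟨ps p u 0, ps_lt p u (by omega)⟩) ?_) ?_
    · intro u v huv
      have h1 : u⁻¹ * v ∈ H0 p := QuotientGroup.leftRel_apply.1 huv
      have h2 : ps p (u⁻¹ * v) 0 = 0 := h1
      have h3 := ps_mul p u (u⁻¹ * v) 0
      rw [mul_inv_cancel_left, h2] at h3
      exact Fin.ext h3.symm
    · intro a c hac
      obtain ⟨u, rfl⟩ := QuotientGroup.mk_surjective a
      obtain ⟨v, rfl⟩ := QuotientGroup.mk_surjective c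
      have h1 : ps p u 0 = ps p v 0 := congrArg Fin.val hac
      refine QuotientGroup.eq.2 ?_
      change ps p (u⁻¹ * v) 0 = 0
      rw [ps_mul, ← h1, ← ps_mul, inv_mul_cancel, ps_one]
  exact Subgroup.finiteIndex_of_finite_quotient

/-- the coefficient of an element which fixes the position `0` -/
def cH : H0 p →* Art (cmB p) where
  toFun u := co p u 0
  map_one' := co_one p 0
  map_mul' u v := by
    rw [Subgroup.coe_mul, co_mul, (show ps p v 0 = 0 from v.2)]

theorem jm_cH (u : H0 p) : jm p (cH p u) = u := by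
  have h1 := mul_rj p u (j := 0) (by omega)
  rw [rj_zero, mul_one, (show ps p u 0 = 0 from u.2), rj_zero, one_mul] at h1
  exact h1.symm

variable {C : (G : Type) → [Group G] → Prop} (hC : Inherits C) (hE : Extension C) (hF : FreeByZ C)
include hC hE hF

omit hE hF in
theorem an_of_bn (h : C (Art (cmB p))) : C (Art (cmP (p + 1))) := by
  refine hC.index _ (H0 p) (H0_finite p) ?_
  refine hC.of_injective (cH p) ?_ h
  intro u v huv
  have h1 := congrArg (jm p) huv
  rw [jm_cH, jm_cH] at h1
  exact Subtype.ext h1

/-- the Artin groups of type `A` (the braid groups) are in the class -/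
theorem an_mem (m : ℕ) : C (Art (cmP m)) := by
  induction m with
  | zero =>
    have h1 : ∀ x : Art (cmP 0), x = 1 := fun x => by
      induction x using art_induction with
      | h1 => rfl
      | h2 x i ih => exact i.elim0
      | h3 x i ih => exact i.elim0
    have : Subsingleton (Art (cmP 0)) := ⟨fun x y => (h1 x).trans (h1 y).symm⟩
    exact hC.fin _ inferInstance
  | succ m ih => exact an_of_bn m hC (bn_of_an m hC hE hF ih)

/-- the Artin groups of type `B` are in the class -/
theorem bn_mem (m : ℕ) : C (Art (cmB m)) := bn_of_an m hC hE hF (an_mem hC hE hF m)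

end Pool.Agent.H98.BR
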