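import Pool.Agent.H98.BR.Dg
import Pool.Agent.H10.DT.Fk

/-!
# Artin groups of type `B` are extensions of Artin groups of type `A` by free groups
-/

set_option autoImplicit false

namespace Pool.Agent.H98.BR

open FreeGroup (of)
open Pool.Agent.H52.PAG Pool.Agent.H98.FJ Pool.Agent.H10.DT
open Pool.Agent.H98.DT (BS)

/-- the action of a braid generator on the letters -/
def rk (k : ℕ) : FreeGroup ℕ →* FreeGroup ℕ :=
  FreeGroup.lift fun l => if l = k then of (k + 1) else if l = k + 1 then (of (k + 1))⁻¹ * of k * of (k + 1) else of l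

/-- the inverse -/
def rk' (k : ℕ) : FreeGroup ℕ →* FreeGroup ℕ :=
  FreeGroup.lift fun l => if l = k then of k * of (k + 1) * (of k)⁻¹ else if l = k + 1 then of k else of l

theorem rk_0 (k : ℕ) : rk k (of k) = of (k + 1) := by simp [rk]

theorem rk_1 (k : ℕ) : rk k (of (k + 1)) = (of (k + 1))⁻¹ * of k * of (k + 1) := by simp [rk]

theorem rk_ne {k l : ℕ} (h : l ≠ k) (h' : l ≠ k + 1) : rk k (of l) = of l := by simp [rk, h, h']

theorem rk'_0 (k : ℕ) : rk' k (of k) = of k * of (k + 1) * (of k)⁻¹ := by simp [rk']

theorem rk'_1 (k : ℕ) : rk' k (of (k + 1)) = of k := by simp [rk']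

theorem rk'_ne {k l : ℕ} (h : l ≠ k) (h' : l ≠ k + 1) : rk' k (of l) = of l := by simp [rk', h, h']

/-- the automorphism -/
def ar (k : ℕ) : MulAut (FreeGroup ℕ) :=
  MonoidHom.toMulEquiv (rk k) (rk' k)
    (FreeGroup.ext_hom _ _ fun l => by
      change rk' k (rk k (of l)) = of l
      by_cases h : l = k
      · rw [h, rk_0, rk'_1]
      · by_cases h' : l = k + 1
        · rw [h', rk_1, map_mul, map_mul, map_inv, rk'_0, rk'_1]
          group
        · rw [rk_ne h h', rk'_ne h h'])
    (FreeGroup.ext_hom _ _ fun l => by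
      change rk k (rk' k (of l)) = of l
      by_cases h : l = k
      · rw [h, rk'_0, map_mul, map_mul, map_inv, rk_0, rk_1]
        group
      · by_cases h' : l = k + 1
        · rw [h', rk'_1, rk_0]
        · rw [rk'_ne h h', rk_ne h h'])

theorem ar_apply (k : ℕ) (x : FreeGroup ℕ) : ar k x = rk k x := rfl

theorem aut_ext {f g : MulAut (FreeGroup ℕ)} (h : ∀ l, f (of l) = g (of l)) : f = g := by
  have h1 : f.toMonoidHom = g.toMonoidHom := FreeGroup.ext_hom _ _ h
  exact MulEquiv.ext fun x => DFunLike.congr_fun h1 x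

theorem bs_ar (m : ℕ) : BS m ar where
  br k _ := by
    refine aut_ext fun l => ?_
    have a0 := rk_0 k
    have a1 := rk_1 k
    have a2 := rk_ne (k := k) (l := k + 1 + 1) (by omega) (by omega)
    have b0 := rk_ne (k := k + 1) (l := k) (by omega) (by omega)
    have b1 := rk_0 (k + 1)
    have b2 := rk_1 (k + 1)
    simp only [MulAut.mul_apply, ar_apply]
    by_cases h : l = k
    · simp only [h, a0, a2, b0, b1]
    · by_cases h' : l = k + 1
      · simp only [h', a0, a1, a2, b0, b1, b2, map_mul, map_inv]
      · by_cases h'' : l = k + 1 + 1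
        · simp only [h'', a1, a2, b0, b1, b2, map_mul, map_inv]
          group
        · rw [rk_ne h h', rk_ne h' h'', rk_ne h h', rk_ne h' h'']
  co k l hkl _ := by
    refine aut_ext fun i => ?_
    have a0 := rk_0 k
    have a1 := rk_1 k
    have a2 := rk_ne (k := k) (l := l) (by omega) (by omega)
    have a3 := rk_ne (k := k) (l := l + 1) (by omega) (by omega)
    have b0 := rk_0 l
    have b1 := rk_1 l
    have b2 := rk_ne (k := l) (l := k) (by omega) (by omega)
    have b3 := rk_ne (k := l) (l := k + 1) (by omega) (by omega)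
    simp only [MulAut.mul_apply, ar_apply]
    by_cases h : i = k
    · simp only [h, a0, b2, b3]
    · by_cases h' : i = k + 1
      · simp only [h', a1, b2, b3, map_mul, map_inv]
      · by_cases h2 : i = l
        · simp only [h2, a2, a3, b0]
        · by_cases h3 : i = l + 1
          · simp only [h3, a2, a3, b1, map_mul, map_inv]
          · rw [rk_ne h h', rk_ne h2 h3, rk_ne h h']

variable (m : ℕ)

/-- the action of the Artin group of type `A` -/
def actA : Art (cmP m) →* MulAut (FreeGroup ℕ) := liftP (bs_ar m)

theorem actA_gP {k : ℕ} (h : k < m) : actA m (gP m k) = ar k := by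
  rw [gP_lt m h]
  exact liftP_gen _ _

/-- the semidirect product -/
abbrev NB : Type := FreeGroup ℕ ⋊[actA m] Art (cmP m)

/-- the letters -/
def xN (l : ℕ) : NB m := SemidirectProduct.inl (of l)

/-- the braid generators -/
def bN (k : ℕ) : NB m := SemidirectProduct.inr (gP m k)

theorem bN_inl {k : ℕ} (h : k < m) (w : FreeGroup ℕ) :
    bN m k * SemidirectProduct.inl w = SemidirectProduct.inl (rk k w) * bN m k := by
  have h1 := SemidirectProduct.inl_aut (φ := actA m) (gP m k) w
  rw [actA_gP m h, map_inv, eq_mul_inv_iff_mul_eq] at h1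
  exact h1.symm

theorem bs_bN : BS m (bN m) where
  br k h := by
    have h1 := congrArg (SemidirectProduct.inr : Art (cmP m) →* NB m) ((bs_gP m).br k h)
    simp only [map_mul] at h1
    exact h1
  co k l h h' := by
    have h1 := congrArg (SemidirectProduct.inr : Art (cmP m) →* NB m) ((bs_gP m).co k l h h')
    simp only [map_mul] at h1
    exact h1

theorem tb_N : TB m (bN m) (xN m 0) where
  toBS := bs_bN m
  sb k hk hk' := by
    rw [xN, bN_inl m hk', rk_ne (by omega) (by omega)]
  sB hm := by
    have h1 : bN m 0 * xN m 0 = xN m 1 * bN m 0 := by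
      rw [xN, bN_inl m hm, rk_0]
      rfl
    have h2 : bN m 0 * xN m 1 = (xN m 1)⁻¹ * xN m 0 * xN m 1 * bN m 0 := by
      have h3 := bN_inl m hm (of 1)
      have h4 := rk_1 0
      rw [zero_add] at h4
      rw [h4, map_mul, map_mul, map_inv] at h3
      exact h3
    calc bN m 0 * xN m 0 * bN m 0 * xN m 0 = (bN m 0 * xN m 0) * (bN m 0 * xN m 0) := by group
      _ = xN m 1 * (bN m 0 * xN m 1) * bN m 0 := by
        rw [h1]
        group
      _ = xN m 0 * (xN m 1 * bN m 0) * bN m 0 := by
        rw [h2]
        group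
      _ = _ := by
        rw [← h1]
        group

/-- the homomorphism to the semidirect product -/
def thB : Art (cmB m) →* NB m := liftB (tb_N m)

/-- the homomorphism of the free group back -/
def fnB : FreeGroup ℕ →* Art (cmB m) :=
  FreeGroup.lift fun l => if l ≤ m then sf (gen _ none) (gB m) l else 1

theorem fnB_le {l : ℕ} (h : l ≤ m) : fnB m (of l) = sf (gen _ none) (gB m) l := by simp [fnB, h]

theorem fnB_gt {l : ℕ} (h : m < l) : fnB m (of l) = 1 := by
  simp [fnB, h]

/-- the homomorphism of the Artin group of type `A` back -/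
def fgB : Art (cmP m) →* Art (cmB m) := liftP (tb_gB m).toBS

theorem fgB_gP {k : ℕ} (h : k < m) : fgB m (gP m k) = gB m k := by
  rw [gP_lt m h]
  exact liftP_gen _ _

theorem fnB_rk {k : ℕ} (h : k < m) (w : FreeGroup ℕ) : fnB m (rk k w) = gB m k * fnB m w * (gB m k)⁻¹ := by
  have hx := (tb_gB m).xs
  have h1 : (fnB m).comp (rk k) = (MulAut.conj (gB m k)).toMonoidHom.comp (fnB m) :=
    FreeGroup.ext_hom _ _ fun l => by
      change fnB m (rk k (of l)) = gB m k * fnB m (of l) * (gB m k)⁻¹
      rw [eq_mul_inv_iff_mul_eq]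
      by_cases h1 : l = k
      · rw [h1, rk_0, fnB_le m (show k + 1 ≤ m by omega), fnB_le m (show k ≤ m by omega)]
        exact (hx.x1 k h).symm
      · by_cases h2 : l = k + 1
        · rw [h2, rk_1, map_mul, map_mul, map_inv, fnB_le m (show k + 1 ≤ m by omega),
            fnB_le m (show k ≤ m by omega)]
          have h3 := hx.x1 k h
          have h4 := hx.x2 k h
          generalize sf (gen (cmB m) none) (gB m) (k + 1) = x' at *
          generalize sf (gen (cmB m) none) (gB m) k = x at *
          generalize gB m k = c at *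
          calc x'⁻¹ * x * x' * c = x'⁻¹ * (x * x' * c) := by group
            _ = x'⁻¹ * (c * x) * x' := by
              rw [← h4]
              group
            _ = c * x' := by
              rw [h3]
              group
        · rw [rk_ne h1 h2]
          by_cases h3 : l ≤ m
          · rw [fnB_le m h3]
            exact (hx.x3 k h l h3 h1 h2).symm
          · rw [fnB_gt m (by omega)]
            simp
  exact DFunLike.congr_fun h1 w

theorem fnB_act (g : Art (cmP m)) (w : FreeGroup ℕ) : fnB m (actA m g w) = fgB m g * fnB m w * (fgB m g)⁻¹ := by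
  have hgen : ∀ (k : Fin m) (w : FreeGroup ℕ), fnB m (actA m (gen _ k) w) =
      fgB m (gen _ k) * fnB m w * (fgB m (gen _ k))⁻¹ := by
    intro k w
    rw [← gP_fin, actA_gP m k.2, fgB_gP m k.2, ar_apply, fnB_rk m k.2]
  induction g using art_induction generalizing w with
  | h1 => simp
  | h2 g i ih =>
    rw [map_mul, MulAut.mul_apply, ih, hgen, map_mul, mul_inv_rev]
    group
  | h3 g i ih =>
    have h4 := hgen i ((actA m (gen _ i))⁻¹ w)
    rw [MulAut.apply_inv_self] at h4
    rw [map_mul, MulAut.mul_apply, ih, map_inv, map_mul, map_inv, mul_inv_rev, inv_inv, h4]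
    group

/-- the homomorphism back -/
def bkB : NB m →* Art (cmB m) :=
  SemidirectProduct.lift (fnB m) (fgB m) fun g => MonoidHom.ext fun w => fnB_act m g w

theorem bkB_thB (g : Art (cmB m)) : bkB m (thB m g) = g := by
  have h1 : (bkB m).comp (thB m) = MonoidHom.id _ := by
    refine b_ext (fun k => ?_) ?_
    · change bkB m (thB m (gen _ (some k))) = gen _ (some k)
      rw [thB, liftB_some, bN, bkB, SemidirectProduct.lift_inr, fgB_gP m k.2, gB_fin]
    · change bkB m (thB m (gen _ none)) = gen _ none
      rw [thB, liftB_none, xN, bkB, SemidirectProduct.lift_inl, fnB_le m (Nat.zero_le m), sf_zero]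
  exact DFunLike.congr_fun h1 g

theorem thB_inj : Function.Injective (thB m) := fun x y h => by
  have h1 := congrArg (bkB m) h
  rwa [bkB_thB, bkB_thB] at h1

variable {C : (G : Type) → [Group G] → Prop}

/-- type `B` from type `A` -/
theorem bn_of_an (hC : Inherits C) (hE : Extension C) (hF : FreeByZ C) (h : C (Art (cmP m))) : C (Art (cmB m)) := by
  let p : Art (cmB m) →* Art (cmP m) := SemidirectProduct.rightHom.comp (thB m)
  refine fk hC hE hF _ _ p h ?_
  have hr : ∀ g : p.ker, (thB m g).right = 1 := fun g => g.2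
  let f : p.ker →* FreeGroup ℕ :=
    { toFun := fun g => (thB m g).left
      map_one' := by simp
      map_mul' := fun x y => by
        rw [Subgroup.coe_mul, map_mul, SemidirectProduct.mul_left, hr x]
        simp }
  refine free_of_injective f ?_ inferInstance
  intro x y hxy
  apply Subtype.ext
  apply thB_inj m
  exact SemidirectProduct.ext hxy ((hr x).trans (hr y).symm)

end Pool.Agent.H98.BR
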