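import Pool.Agent.H98.BR.Xs
import Pool.Agent.H98.DT.Ax

/-!
# Artin groups of the types `A` and `B`

`cmP m` is the path with the vertices `Fin m` (type `A`), `cmB m` the path with a further vertex `none` which is connected with the
vertex `0` by the label `4` (type `B`).
-/

set_option autoImplicit false

namespace Pool.Agent.H98.BR

open Pool.Agent.H52.PAG
open Pool.Agent.H98.DT (BS pl alt_two alt_three)

theorem alt_four {G : Type*} [Monoid G] (x y : G) : alt x y 4 = x * y * x * y := by simp [alt, mul_assoc]

theorem pl_comm (k l : ℕ) : pl k l = pl l k := by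
  simp only [pl]
  split_ifs <;> omega

/-- the path -/
def cmP (m : ℕ) : CoxeterMatrix (Fin m) where
  M := Matrix.of fun k l => pl k.val l.val
  isSymm := by
    ext k l
    exact pl_comm _ _
  diagonal k := by simp [pl]
  off_diagonal k l h := by
    have h1 : k.val ≠ l.val := fun h1 => h (Fin.ext h1)
    simp only [Matrix.of_apply, pl, if_neg h1]
    split_ifs <;> omega

theorem cmP_apply (m : ℕ) (k l : Fin m) : cmP m k l = pl k.val l.val := rfl

/-- the labels of the diagram of type `B` -/
def lB {m : ℕ} : Option (Fin m) → Option (Fin m) → ℕ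
  | some k, some l => pl k l
  | some k, none => if k.val = 0 then 4 else 2
  | none, some k => if k.val = 0 then 4 else 2
  | none, none => 1

/-- the diagram of type `B` -/
def cmB (m : ℕ) : CoxeterMatrix (Option (Fin m)) where
  M := Matrix.of lB
  isSymm := by
    ext x y
    rcases x with _ | k <;> rcases y with _ | l
    · rfl
    · rfl
    · rfl
    · exact pl_comm _ _
  diagonal x := by
    rcases x with _ | k
    · rfl
    · simp [lB, pl]
  off_diagonal x y h := by
    rcases x with _ | k <;> rcases y with _ | l
    · exact (h rfl).elim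
    · simp only [Matrix.of_apply, lB]
      split_ifs <;> omega
    · simp only [Matrix.of_apply, lB]
      split_ifs <;> omega
    · have h1 : k.val ≠ l.val := fun h1 => h (congrArg some (Fin.ext h1))
      simp only [Matrix.of_apply, lB, pl, if_neg h1]
      split_ifs <;> omega

theorem cmB_apply (m : ℕ) (x y : Option (Fin m)) : cmB m x y = lB x y := rfl

section Lift

variable {m : ℕ} {G : Type*} [Group G]

/-- the braid relations imply the relations of the path -/
theorem alt_path {b : ℕ → G} (h : BS m b) (k l : Fin m) :
    alt (b k) (b l) (pl k l) = alt (b l) (b k) (pl k l) := by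
  simp only [pl]
  split_ifs with h1 h2
  · rw [h1]
  · rw [alt_three, alt_three]
    rcases h2 with h2 | h2
    · have h3 := h.br k.val (by omega)
      rwa [h2] at h3
    · have h3 := h.br l.val (by omega)
      rw [h2] at h3
      exact h3.symm
  · rw [alt_two, alt_two]
    rcases lt_or_gt_of_ne h1 with h3 | h3
    · exact h.co k.val l.val (by omega) l.2
    · exact (h.co l.val k.val (by omega) k.2).symm

/-- homomorphisms from the Artin group of type `A` -/
def liftP {b : ℕ → G} (h : BS m b) : Art (cmP m) →* G :=
  lift (fun k : Fin m => b k) fun k l _ => alt_path h k l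

@[simp]
theorem liftP_gen {b : ℕ → G} (h : BS m b) (k : Fin m) : liftP h (gen _ k) = b k := lift_gen _ _ _

/-- the relations of type `B` -/
structure TB (m : ℕ) (b : ℕ → G) (s : G) : Prop extends BS m b where
  sb : ∀ k, 0 < k → k < m → b k * s = s * b k
  sB : 0 < m → b 0 * s * b 0 * s = s * b 0 * s * b 0

theorem TB.xs {b : ℕ → G} {s : G} (h : TB m b s) : XS m b (sf s b) := xs_of_bs h.toBS h.sb h.sB

/-- homomorphisms from the Artin group of type `B` -/
def liftB {b : ℕ → G} {s : G} (h : TB m b s) : Art (cmB m) →* G :=
  lift (fun x : Option (Fin m) => x.elim s fun k => b k) fun x y _ => by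
    rw [cmB_apply]
    rcases x with _ | k <;> rcases y with _ | l
    · rfl
    · simp only [lB, Option.elim]
      split_ifs with h1
      · rw [alt_four, alt_four, h1]
        exact (h.sB (by have := l.2; omega)).symm
      · rw [alt_two, alt_two]
        exact (h.sb l.val (by omega) l.2).symm
    · simp only [lB, Option.elim]
      split_ifs with h1
      · rw [alt_four, alt_four, h1]
        exact h.sB (by have := k.2; omega)
      · rw [alt_two, alt_two]
        exact h.sb k.val (by omega) k.2
    · exact alt_path h.toBS k l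

@[simp]
theorem liftB_some {b : ℕ → G} {s : G} (h : TB m b s) (k : Fin m) : liftB h (gen _ (some k)) = b k :=
  lift_gen _ _ _

@[simp]
theorem liftB_none {b : ℕ → G} {s : G} (h : TB m b s) : liftB h (gen _ none) = s := lift_gen _ _ _

theorem b_ext {f g : Art (cmB m) →* G} (h1 : ∀ k, f (gen _ (some k)) = g (gen _ (some k)))
    (h2 : f (gen _ none) = g (gen _ none)) : f = g :=
  art_ext fun x => by
    rcases x with _ | k
    · exact h2
    · exact h1 k

end Lift

section Gen

variable (m : ℕ)

/-- the generators of the Artin group of type `A` -/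
def gP (k : ℕ) : Art (cmP m) := if h : k < m then gen _ ⟨k, h⟩ else 1

theorem gP_lt {k : ℕ} (h : k < m) : gP m k = gen _ ⟨k, h⟩ := dif_pos h

theorem gP_fin (k : Fin m) : gP m k = gen _ k := dif_pos k.2

theorem bs_gP : BS m (gP m) where
  br k hk := by
    rw [gP_lt m hk, gP_lt m (show k < m by omega)]
    have h1 := gen_rel (M := cmP m) (i := ⟨k, by omega⟩) (j := ⟨k + 1, hk⟩)
    have h2 : cmP m ⟨k, by omega⟩ ⟨k + 1, hk⟩ = 3 := by
      rw [cmP_apply]
      simp [pl]
    rw [h2, alt_three, alt_three] at h1
    exact h1 (by decide)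
  co k l hkl hl := by
    rw [gP_lt m hl, gP_lt m (show k < m by omega)]
    have h1 := gen_rel (M := cmP m) (i := ⟨k, by omega⟩) (j := ⟨l, hl⟩)
    have h2 : cmP m ⟨k, by omega⟩ ⟨l, hl⟩ = 2 := by
      rw [cmP_apply]
      simp only [pl]
      rw [if_neg (by omega), if_neg (by omega)]
    rw [h2, alt_two, alt_two] at h1
    exact h1 (by decide)

/-- the generators of the path of the Artin group of type `B` -/
def gB (k : ℕ) : Art (cmB m) := if h : k < m then gen _ (some ⟨k, h⟩) else 1

theorem gB_lt {k : ℕ} (h : k < m) : gB m k = gen _ (some ⟨k, h⟩) := dif_pos h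

theorem gB_fin (k : Fin m) : gB m k = gen _ (some k) := dif_pos k.2

theorem tb_gB : TB m (gB m) (gen _ none) where
  br k hk := by
    rw [gB_lt m hk, gB_lt m (show k < m by omega)]
    have h1 := gen_rel (M := cmB m) (i := some ⟨k, by omega⟩) (j := some ⟨k + 1, hk⟩)
    have h2 : cmB m (some ⟨k, by omega⟩) (some ⟨k + 1, hk⟩) = 3 := by
      rw [cmB_apply]
      simp [lB, pl]
    rw [h2, alt_three, alt_three] at h1
    exact h1 (by decide)
  co k l hkl hl := by
    rw [gB_lt m hl, gB_lt m (show k < m by omega)]
    have h1 := gen_rel (M := cmB m) (i := some ⟨k, by omega⟩) (j := some ⟨l, hl⟩)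
    have h2 : cmB m (some ⟨k, by omega⟩) (some ⟨l, hl⟩) = 2 := by
      rw [cmB_apply]
      simp only [lB, pl]
      rw [if_neg (by omega), if_neg (by omega)]
    rw [h2, alt_two, alt_two] at h1
    exact h1 (by decide)
  sb k hk hk' := by
    rw [gB_lt m hk']
    have h1 := gen_rel (M := cmB m) (i := some ⟨k, hk'⟩) (j := none)
    have h2 : cmB m (some ⟨k, hk'⟩) none = 2 := by
      rw [cmB_apply]
      simp only [lB]
      rw [if_neg (by omega)]
    rw [h2, alt_two, alt_two] at h1
    exact h1 (by decide)
  sB hm := by
    rw [gB_lt m hm]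
    have h1 := gen_rel (M := cmB m) (i := some ⟨0, hm⟩) (j := none)
    have h2 : cmB m (some ⟨0, hm⟩) none = 4 := by
      rw [cmB_apply]
      simp [lB]
    rw [h2, alt_four, alt_four] at h1
    exact h1 (by decide)

end Gen

end Pool.Agent.H98.BR
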