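import Pool.Agent.H98.BR.An
import Pool.Agent.H75.BT.Co
import Pool.Agent.H52.DT.Rel

/-!
# Artin groups of type `D` are in the class

The homomorphism to the Artin group of type `A` which identifies the two leaves has a free kernel.
-/

set_option autoImplicit false

namespace Pool.Agent.H98.BR

open Pool.Agent.H52.PAG Pool.Agent.H98.FJ Pool.Agent.H10.DT
open Pool.Agent.H98.DT (BS pl alt_two alt_three cmD cmD_apply lD liftD liftD_b liftD_q d_ext drel_gen DRel BRel)
open Pool.Agent.H75.BT (W X tT vV tT_zero tT_succ vV_self vV_succ vV_ne DS el Rp Hh back right_one)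
open FreeGroup (of)

/-- the image of the second leaf -/
noncomputable def qX : X := SemidirectProduct.inl (of 0)⁻¹ * SemidirectProduct.inr tT

theorem qX_cm {y : MulAut W} (h0 : y (of 0) = of 0) (h : tT * y = y * tT) :
    qX * (SemidirectProduct.inr y : X) = (SemidirectProduct.inr y : X) * qX := by
  unfold qX
  refine SemidirectProduct.ext ?_ ?_
  · simp [SemidirectProduct.mul_left, h0]
  · simpa [SemidirectProduct.mul_right] using h

theorem qX_br : qX * (SemidirectProduct.inr (vV 0) : X) * qX =
    (SemidirectProduct.inr (vV 0) : X) * qX * (SemidirectProduct.inr (vV 0) : X) := by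
  have a0 := vV_self 0
  have h3 := tT_succ 0
  rw [zero_add] at a0 h3
  unfold qX
  refine SemidirectProduct.ext ?_ ?_
  · simp [SemidirectProduct.mul_left, a0, h3]
  · simpa [SemidirectProduct.mul_right] using Pool.Agent.H75.BT.tv

/-- the images of the path -/
noncomputable def bX : ℕ → X
  | 0 => SemidirectProduct.inr tT
  | k + 1 => SemidirectProduct.inr (vV k)

theorem bX_br (k : ℕ) : bX k * bX (k + 1) * bX k = bX (k + 1) * bX k * bX (k + 1) := by
  rcases k with _ | k
  · change (SemidirectProduct.inr tT : X) * SemidirectProduct.inr (vV 0) * SemidirectProduct.inr tT =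
      SemidirectProduct.inr (vV 0) * SemidirectProduct.inr tT * SemidirectProduct.inr (vV 0)
    rw [← map_mul, ← map_mul, ← map_mul, ← map_mul, Pool.Agent.H75.BT.tv]
  · change (SemidirectProduct.inr (vV k) : X) * SemidirectProduct.inr (vV (k + 1)) * SemidirectProduct.inr (vV k) =
      SemidirectProduct.inr (vV (k + 1)) * SemidirectProduct.inr (vV k) * SemidirectProduct.inr (vV (k + 1))
    rw [← map_mul, ← map_mul, ← map_mul, ← map_mul, Pool.Agent.H75.BT.vv]

theorem bX_co (k l : ℕ) (h : k + 2 ≤ l) : bX k * bX l = bX l * bX k := by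
  obtain ⟨l, rfl⟩ : ∃ l', l = l' + 2 := ⟨l - 2, by omega⟩
  rcases k with _ | k
  · change (SemidirectProduct.inr tT : X) * SemidirectProduct.inr (vV (l + 1)) =
      SemidirectProduct.inr (vV (l + 1)) * SemidirectProduct.inr tT
    rw [← map_mul, ← map_mul, Pool.Agent.H75.BT.tv']
  · change (SemidirectProduct.inr (vV k) : X) * SemidirectProduct.inr (vV (l + 1)) =
      SemidirectProduct.inr (vV (l + 1)) * SemidirectProduct.inr (vV k)
    rw [← map_mul, ← map_mul, Pool.Agent.H75.BT.vv' (by omega)]

section D

variable (n : ℕ)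

theorem drel_X : DRel 1 (fun k : Fin (n + 3) => bX k) qX where
  br k l h := by
    rw [← h]
    exact bX_br k
  co k l h := bX_co k l h
  qbr k h := by
    rw [h]
    exact qX_br
  qco k h := by
    rcases hk : k.val with _ | _ | k'
    · change qX * SemidirectProduct.inr tT = SemidirectProduct.inr tT * qX
      exact qX_cm tT_zero rfl
    · omega
    · change qX * SemidirectProduct.inr (vV (k' + 1)) = SemidirectProduct.inr (vV (k' + 1)) * qX
      exact qX_cm (vV_ne (by omega) (by omega)) (Pool.Agent.H75.BT.tv' k')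

/-- the representation -/
noncomputable def th : Art (cmD n 1) →* X := liftD (drel_X n)

theorem drel_P : DRel 1 (fun k : Fin (n + 3) => gP (n + 3) k) (gP (n + 3) 0) where
  br k l h := by
    have h1 := (bs_gP (n + 3)).br k.val (by omega)
    rwa [h] at h1
  co k l h := (bs_gP (n + 3)).co k.val l.val (by omega) l.2
  qbr k h := by
    have h1 := (bs_gP (n + 3)).br 0 (by omega)
    rw [h]
    exact h1
  qco k h := by
    rcases Nat.eq_zero_or_pos k.val with h1 | h1
    · rw [h1]
    · exact (bs_gP (n + 3)).co 0 k.val (by omega) k.2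

/-- the identification of the two leaves -/
def ka : Art (cmD n 1) →* Art (cmP (n + 3)) := liftD (drel_P n)

/-- the generators of the path -/
def gD (k : ℕ) : Art (cmD n 1) := if h : k < n + 3 then gen _ (some ⟨k, h⟩) else 1

theorem gD_lt {k : ℕ} (h : k < n + 3) : gD n k = gen _ (some ⟨k, h⟩) := dif_pos h

theorem gD_fin (k : Fin (n + 3)) : gD n k = gen _ (some k) := dif_pos k.2

theorem bs_gD : BS (n + 3) (gD n) where
  br k hk := by
    rw [gD_lt n hk, gD_lt n (show k < n + 3 by omega)]
    exact (drel_gen n 1).br ⟨k, by omega⟩ ⟨k + 1, hk⟩ rfl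
  co k l hkl hl := by
    rw [gD_lt n hl, gD_lt n (show k < n + 3 by omega)]
    exact (drel_gen n 1).co ⟨k, by omega⟩ ⟨l, hl⟩ (by simpa using hkl)

/-- the inclusion of the path -/
def si : Art (cmP (n + 3)) →* Art (cmD n 1) := liftP (bs_gD n)

theorem si_gP (k : ℕ) : si n (gP (n + 3) k) = gD n k := by
  by_cases h : k < n + 3
  · rw [gP_lt _ h]
    exact liftP_gen (bs_gD n) ⟨k, h⟩
  · rw [gP, dif_neg h, gD, dif_neg h, map_one]

theorem th_gD {k : ℕ} (h : k < n + 3) : th n (gD n k) = bX k := by
  rw [gD_lt n h]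
  exact liftD_b (drel_X n) ⟨k, h⟩

theorem ka_gD {k : ℕ} (h : k < n + 3) : ka n (gD n k) = gP (n + 3) k := by
  rw [gD_lt n h]
  exact liftD_b (drel_P n) ⟨k, h⟩

theorem ds_gD : DS (gD n 0) (gen (cmD n 1) none) (fun i => gD n (i + 1)) (n + 2) where
  pq := by
    rw [gD_lt n (by omega)]
    exact ((drel_gen n 1).qco ⟨0, by omega⟩ (by simp)).symm
  pc _ := (bs_gD n).br 0 (by omega)
  qc _ := by
    rw [gD_lt n (by omega)]
    exact (drel_gen n 1).qbr ⟨1, by omega⟩ rfl
  pc' i hi := (bs_gD n).co 0 (i + 2) (by omega) (by omega)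
  qc' i hi := by
    change gen (cmD n 1) none * gD n (i + 1 + 1) = gD n (i + 1 + 1) * gen (cmD n 1) none
    rw [gD_lt n (show i + 1 + 1 < n + 3 by omega)]
    exact (drel_gen n 1).qco ⟨i + 1 + 1, by omega⟩ (by simp)
  cc i hi := (bs_gD n).br (i + 1) (by omega)
  cc' i j hij hj := (bs_gD n).co (i + 1) (j + 1) (by omega) (by omega)

theorem rp_gD : Rp (gD n 0) (gen (cmD n 1) none) (fun i => gD n (i + 1)) (n + 2) (th n) ((si n).comp (ka n)) where
  tp := th_gD n (by omega)
  tq := liftD_q (drel_X n)
  tc i hi := th_gD n (by omega)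
  kp := by rw [MonoidHom.comp_apply, ka_gD n (by omega), si_gP]
  kq := by
    rw [MonoidHom.comp_apply, ka, liftD_q, si_gP]
  kc i hi := by
    change (si n) (ka n (gD n (i + 1))) = gD n (i + 1)
    rw [ka_gD n (by omega), si_gP]

theorem hh_top (x : Art (cmD n 1)) : x ∈ Hh (gD n 0) (gen (cmD n 1) none) (fun i => gD n (i + 1)) (n + 2) := by
  have h1 : ∀ b, gen (cmD n 1) b ∈ Hh (gD n 0) (gen (cmD n 1) none) (fun i => gD n (i + 1)) (n + 2) := by
    rintro (_ | ⟨k, hk⟩)
    · exact Subgroup.subset_closure (Or.inl (Or.inr rfl))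
    · rw [← gD_lt n hk]
      rcases k with _ | k
      · exact Subgroup.subset_closure (Or.inl (Or.inl rfl))
      · exact Subgroup.subset_closure (Or.inr ⟨k, (by omega : k < n + 2), rfl⟩)
  induction x using art_induction with
  | h1 => exact one_mem _
  | h2 u i ih => exact mul_mem ih (h1 i)
  | h3 u i ih => exact mul_mem ih (inv_mem (h1 i))

/-- the kernel is a free group -/
theorem ka_free : IsFreeGroup (ka n).ker := by
  have h1 : ∀ x : (ka n).ker, th n x = SemidirectProduct.inl (th n x).left := by
    intro x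
    refine right_one (rp_gD n) (hh_top n x) ?_
    rw [MonoidHom.comp_apply, (show ka n x = 1 from x.2), map_one]
  let φ : (ka n).ker →* W :=
    { toFun := fun x => (th n x).left
      map_one' := by
        rw [OneMemClass.coe_one, map_one]
        rfl
      map_mul' := fun x y => by
        rw [Subgroup.coe_mul, map_mul, h1 x, h1 y, ← map_mul, SemidirectProduct.left_inl, SemidirectProduct.left_inl,
          SemidirectProduct.left_inl] }
  refine free_of_injective φ ?_ inferInstance
  intro x y hxy
  have h2 : ∀ z : (ka n).ker, (z : Art (cmD n 1)) = FreeGroup.lift (el (gD n 0) (gen (cmD n 1) none) (fun i => gD n (i + 1))) (φ z) := by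
    intro z
    have h3 := (back (ds_gD n) (rp_gD n) (hh_top n z)).2
    rw [MonoidHom.comp_apply, (show ka n z = 1 from z.2), map_one, mul_one] at h3
    exact h3
  refine Subtype.ext ?_
  rw [h2 x, h2 y, hxy]

variable {C : (G : Type) → [Group G] → Prop} (hC : Inherits C) (hE : Extension C) (hF : FreeByZ C)
include hC hE hF

/-- the Artin groups of type `D` are in the class -/
theorem dn_mem : C (Art (cmD n 1)) := fk hC hE hF _ _ (ka n) (an_mem hC hE hF (n + 3)) (ka_free n)

/-- the reversed path -/
def rv : Option (Fin (n + 3)) ≃ Option (Fin (n + 3)) := Equiv.optionCongr Fin.revPerm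

omit hC hE hF in
theorem rv_lab (x y : Option (Fin (n + 3))) : cmD n 1 (rv n x) (rv n y) = cmD n (n + 1) x y := by
  rcases x with _ | k <;> rcases y with _ | l
  · rfl
  · change (if (Fin.rev l).val = 1 then 3 else 2) = if l.val = n + 1 then 3 else 2
    rw [Fin.val_rev]
    have := l.2
    split_ifs <;> omega
  · change (if (Fin.rev k).val = 1 then 3 else 2) = if k.val = n + 1 then 3 else 2
    rw [Fin.val_rev]
    have := k.2
    split_ifs <;> omega
  · change pl (Fin.rev k).val (Fin.rev l).val = pl k.val l.val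
    rw [Fin.val_rev, Fin.val_rev, pl, pl]
    have := k.2
    have := l.2
    split_ifs <;> omega

theorem dn_mem' : C (Art (cmD n (n + 1))) :=
  Pool.Agent.H52.DT.art_mem_congr hC _ _ (rv n) (rv_lab n) (dn_mem n hC hE hF)

end D

end Pool.Agent.H98.BR
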