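import Pool.Agent.H98.BR.Ba

/-!
# The monomial representation of the Artin group of type `A`

The Artin group of type `A` with `p + 1` generators acts on `ℕ × A`, `A` the Artin group of type `B` with `p + 1` generators:
`σ_i (j, g) = (sw i j, hh i j * g)`. The elements which fix the position `0` form a subgroup of finite index which embeds in `A`.
-/

set_option autoImplicit false

namespace Pool.Agent.H98.BR

open Pool.Agent.H52.PAG Pool.Agent.H98.FJ Pool.Agent.H10.DT
open Pool.Agent.H98.DT (BS)

/-- the exchange of `i` and `i + 1` -/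
def sw (i j : ℕ) : ℕ := if j = i then i + 1 else if j = i + 1 then i else j

theorem sw_0 (i : ℕ) : sw i i = i + 1 := if_pos rfl

theorem sw_1 (i : ℕ) : sw i (i + 1) = i := by simp [sw]

theorem sw_ne {i j : ℕ} (h : j ≠ i) (h' : j ≠ i + 1) : sw i j = j := by simp [sw, h, h']

theorem sw_sw (i j : ℕ) : sw i (sw i j) = j := by
  simp only [sw]
  split_ifs <;> omega

variable (p : ℕ)

/-- the family of conjugates of the last generator -/
def xB (k : ℕ) : Art (cmB p) := sf (gen _ none) (gB p) k

theorem xs_B : XS p (gB p) (xB p) := (tb_gB p).xs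

/-- the coefficients -/
def hh (i j : ℕ) : Art (cmB p) :=
  if p + 2 ≤ j then 1 else if i = j then 1 else if i + 1 = j then xB p i else if i < j then gB p i else gB p (i - 1)

theorem hh_big {i j : ℕ} (h : p + 2 ≤ j) : hh p i j = 1 := if_pos h

theorem hh_0 (i : ℕ) : hh p i i = 1 := by
  rw [hh, if_pos rfl, ite_self]

theorem hh_1 {i : ℕ} (h : i + 1 < p + 2) : hh p i (i + 1) = xB p i := by
  rw [hh, if_neg (by omega), if_neg (by omega), if_pos rfl]

theorem hh_lt {i j : ℕ} (h : i + 1 < j) (h' : j < p + 2) : hh p i j = gB p i := by
  rw [hh, if_neg (by omega), if_neg (by omega), if_neg (by omega), if_pos (by omega)]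

theorem hh_gt {i j : ℕ} (h : j ≤ i) (h' : j < p + 2) : hh p (i + 1) j = gB p i := by
  rw [hh, if_neg (by omega), if_neg (by omega), if_neg (by omega), if_neg (by omega), Nat.add_sub_cancel]

/-- the action of a generator -/
def pmo (i : ℕ) : Equiv.Perm (ℕ × Art (cmB p)) where
  toFun q := (sw i q.1, hh p i q.1 * q.2)
  invFun q := (sw i q.1, (hh p i (sw i q.1))⁻¹ * q.2)
  left_inv q := by simp [sw_sw]
  right_inv q := by simp [sw_sw]

theorem pmo_apply (i j : ℕ) (g : Art (cmB p)) : pmo p i (j, g) = (sw i j, hh p i j * g) := rfl

theorem pmo_inv_apply (i j : ℕ) (g : Art (cmB p)) : (pmo p i)⁻¹ (j, g) = (sw i j, (hh p i (sw i j))⁻¹ * g) := rfl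

theorem bs_pmo : BS (p + 1) (pmo p) where
  br k hk := by
    have hx := xs_B p
    refine Equiv.ext fun q => ?_
    obtain ⟨j, g⟩ := q
    simp only [Equiv.Perm.mul_apply, pmo_apply]
    have s0 := sw_0 k
    have s1 := sw_1 k
    have s2 := sw_ne (i := k) (j := k + 1 + 1) (by omega) (by omega)
    have t0 := sw_ne (i := k + 1) (j := k) (by omega) (by omega)
    have t1 := sw_0 (k + 1)
    have t2 := sw_1 (k + 1)
    have a0 := hh_0 p k
    have b1 := hh_0 p (k + 1)
    have a1 := hh_1 p (i := k) (by omega)
    have b0 := hh_gt p (i := k) (j := k) (by omega) (by omega)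
    have b2 := hh_1 p (i := k + 1) (by omega)
    have a2 := hh_lt p (i := k) (j := k + 1 + 1) (by omega) (by omega)
    by_cases hj : j = k
    · simp only [hj, s0, s2, t0, t1, a0, a2, b0, b1, one_mul]
    · by_cases hj1 : j = k + 1
      · simp only [hj1, s0, s1, s2, t0, t1, t2, a0, a1, a2, b0, b1, b2, one_mul]
        refine Prod.ext rfl ?_
        change gB p k * (xB p k * g) = xB p (k + 1) * (gB p k * g)
        rw [← mul_assoc, hx.x1 k (by omega), mul_assoc]
      · by_cases hj2 : j = k + 1 + 1
        · simp only [hj2, s1, s2, t0, t2, a1, a2, b0, b2]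
          refine Prod.ext rfl ?_
          change xB p k * (xB p (k + 1) * (gB p k * g)) = gB p k * (xB p k * (xB p (k + 1) * g))
          have h1 := hx.x2 k (by omega)
          calc xB p k * (xB p (k + 1) * (gB p k * g)) = (xB p k * xB p (k + 1) * gB p k) * g := by group
            _ = _ := by
              rw [← h1]
              group
        · have e1 := sw_ne (i := k) (j := j) hj hj1
          have e2 := sw_ne (i := k + 1) (j := j) hj1 hj2
          simp only [e1, e2]
          refine Prod.ext rfl ?_
          change hh p k j * (hh p (k + 1) j * (hh p k j * g)) = hh p (k + 1) j * (hh p k j * (hh p (k + 1) j * g))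
          by_cases hb : p + 2 ≤ j
          · rw [hh_big p hb, hh_big p hb]
          · rcases Nat.lt_or_ge j k with h1 | h1
            · obtain ⟨k, rfl⟩ : ∃ l, k = l + 1 := ⟨k - 1, by omega⟩
              rw [hh_gt p (by omega) (by omega), hh_gt p (by omega) (by omega)]
              have h2 := hx.br k (by omega)
              calc gB p k * (gB p (k + 1) * (gB p k * g)) = (gB p k * gB p (k + 1) * gB p k) * g := by group
                _ = _ := by
                  rw [h2]
                  group
            · rw [hh_lt p (i := k) (by omega) (by omega), hh_lt p (i := k + 1) (by omega) (by omega)]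
              have h2 := hx.br k (by omega)
              calc gB p k * (gB p (k + 1) * (gB p k * g)) = (gB p k * gB p (k + 1) * gB p k) * g := by group
                _ = _ := by
                  rw [h2]
                  group
  co k l hkl hl := by
    have hx := xs_B p
    refine Equiv.ext fun q => ?_
    obtain ⟨j, g⟩ := q
    simp only [Equiv.Perm.mul_apply, pmo_apply]
    obtain ⟨l, rfl⟩ : ∃ l', l = l' + 1 := ⟨l - 1, by omega⟩
    by_cases hj : j = k
    · have e1 := sw_0 k
      have e2 := sw_ne (i := l + 1) (j := k) (by omega) (by omega)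
      have e3 := sw_ne (i := l + 1) (j := k + 1) (by omega) (by omega)
      have e4 := hh_gt p (i := l) (j := k) (by omega) (by omega)
      have e5 := hh_gt p (i := l) (j := k + 1) (by omega) (by omega)
      have e6 := hh_0 p k
      simp only [hj, e1, e2, e3, e4, e5, e6, one_mul]
    · by_cases hj1 : j = k + 1
      · have e1 := sw_1 k
        have e2 := sw_ne (i := l + 1) (j := k) (by omega) (by omega)
        have e3 := sw_ne (i := l + 1) (j := k + 1) (by omega) (by omega)
        have e4 := hh_gt p (i := l) (j := k) (by omega) (by omega)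
        have e5 := hh_gt p (i := l) (j := k + 1) (by omega) (by omega)
        have e6 := hh_1 p (i := k) (by omega)
        simp only [hj1, e1, e2, e3, e4, e5, e6]
        refine Prod.ext rfl ?_
        change xB p k * (gB p l * g) = gB p l * (xB p k * g)
        rw [← mul_assoc, ← mul_assoc, hx.x3 l (by omega) k (by omega) (by omega) (by omega)]
      · have e0 := sw_ne (i := k) (j := j) hj hj1
        by_cases hj2 : j = l + 1
        · have e1 := sw_0 (l + 1)
          have e2 := sw_ne (i := k) (j := l + 1) (by omega) (by omega)
          have e3 := sw_ne (i := k) (j := l + 1 + 1) (by omega) (by omega)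
          have e4 := hh_lt p (i := k) (j := l + 1) (by omega) (by omega)
          have e5 := hh_lt p (i := k) (j := l + 1 + 1) (by omega) (by omega)
          have e6 := hh_0 p (l + 1)
          simp only [hj2, e1, e2, e3, e4, e5, e6, one_mul]
        · by_cases hj3 : j = l + 1 + 1
          · have e1 := sw_1 (l + 1)
            have e2 := sw_ne (i := k) (j := l + 1) (by omega) (by omega)
            have e3 := sw_ne (i := k) (j := l + 1 + 1) (by omega) (by omega)
            have e4 := hh_lt p (i := k) (j := l + 1) (by omega) (by omega)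
            have e5 := hh_lt p (i := k) (j := l + 1 + 1) (by omega) (by omega)
            have e6 := hh_1 p (i := l + 1) (by omega)
            simp only [hj3, e1, e2, e3, e4, e5, e6]
            refine Prod.ext rfl ?_
            change gB p k * (xB p (l + 1) * g) = xB p (l + 1) * (gB p k * g)
            rw [← mul_assoc, ← mul_assoc, hx.x3 k (by omega) (l + 1) (by omega) (by omega) (by omega)]
          · have e1 := sw_ne (i := l + 1) (j := j) hj2 hj3
            simp only [e0, e1]
            refine Prod.ext rfl ?_
            change hh p k j * (hh p (l + 1) j * g) = hh p (l + 1) j * (hh p k j * g)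
            by_cases hb : p + 2 ≤ j
            · rw [hh_big p hb, hh_big p hb]
            · rcases Nat.lt_or_ge j k with h1 | h1
              · obtain ⟨k, rfl⟩ : ∃ k', k = k' + 1 := ⟨k - 1, by omega⟩
                rw [hh_gt p (by omega) (by omega), hh_gt p (by omega) (by omega), ← mul_assoc, ← mul_assoc,
                  hx.co k l (by omega) (by omega)]
              · rw [hh_lt p (i := k) (j := j) (by omega) (by omega)]
                rcases Nat.lt_or_ge j (l + 1) with h2 | h2
                · rw [hh_gt p (by omega) (by omega), ← mul_assoc, ← mul_assoc, hx.co k l (by omega) (by omega)]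
                · rw [hh_lt p (i := l + 1) (j := j) (by omega) (by omega), ← mul_assoc, ← mul_assoc,
                    hx.co k (l + 1) (by omega) (by omega)]

/-- the monomial representation -/
def mo : Art (cmP (p + 1)) →* Equiv.Perm (ℕ × Art (cmB p)) := liftP (bs_pmo p)

theorem mo_gen (k : Fin (p + 1)) : mo p (gen _ k) = pmo p k := liftP_gen _ _

/-- the position -/
def ps (u : Art (cmP (p + 1))) (j : ℕ) : ℕ := (mo p u (j, 1)).1

/-- the coefficient -/
def co (u : Art (cmP (p + 1))) (j : ℕ) : Art (cmB p) := (mo p u (j, 1)).2

theorem mo_apply (u : Art (cmP (p + 1))) (j : ℕ) (g : Art (cmB p)) : mo p u (j, g) = (ps p u j, co p u j * g) := by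
  induction u using art_induction generalizing j g with
  | h1 => simp [ps, co]
  | h2 u i ih =>
    rw [ps, co, map_mul, Equiv.Perm.mul_apply, Equiv.Perm.mul_apply, mo_gen, pmo_apply, pmo_apply, ih, ih]
    simp [mul_assoc]
  | h3 u i ih =>
    rw [ps, co, map_mul, map_inv, Equiv.Perm.mul_apply, Equiv.Perm.mul_apply, mo_gen, pmo_inv_apply, pmo_inv_apply,
      ih, ih]
    simp [mul_assoc]

theorem ps_mul (u v : Art (cmP (p + 1))) (j : ℕ) : ps p (u * v) j = ps p u (ps p v j) := by
  have h1 : mo p (u * v) (j, 1) = mo p u (mo p v (j, 1)) := by rw [map_mul, Equiv.Perm.mul_apply]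
  rw [mo_apply, mo_apply p v, mo_apply p u] at h1
  exact (Prod.mk.inj h1).1

theorem co_mul (u v : Art (cmP (p + 1))) (j : ℕ) : co p (u * v) j = co p u (ps p v j) * co p v j := by
  have h1 : mo p (u * v) (j, 1) = mo p u (mo p v (j, 1)) := by rw [map_mul, Equiv.Perm.mul_apply]
  rw [mo_apply, mo_apply p v, mo_apply p u] at h1
  have h2 := (Prod.mk.inj h1).2
  rwa [mul_one, mul_one] at h2

theorem ps_one (j : ℕ) : ps p 1 j = j := by simp [ps]

theorem co_one (j : ℕ) : co p 1 j = 1 := by simp [co]

theorem ps_lt (u : Art (cmP (p + 1))) {j : ℕ} (hj : j < p + 2) : ps p u j < p + 2 := by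
  have hsw : ∀ (i : Fin (p + 1)) {j : ℕ}, j < p + 2 → sw i j < p + 2 := by
    intro i j hj
    simp only [sw]
    split_ifs <;> omega
  induction u using art_induction generalizing j with
  | h1 => rwa [ps_one]
  | h2 u i ih =>
    rw [ps_mul]
    have h1 : ps p (gen _ i) j = sw i j := by rw [ps, mo_gen, pmo_apply]
    rw [h1]
    exact ih (hsw i hj)
  | h3 u i ih =>
    rw [ps_mul]
    have h1 : ps p (gen _ i)⁻¹ j = sw i j := by rw [ps, map_inv, mo_gen, pmo_inv_apply]
    rw [h1]
    exact ih (hsw i hj)

end Pool.Agent.H98.BR
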