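import Pool.Agent.H98.DT.Rs

/-!
# Braid generators and a family of elements

`XS m b x`: the `b k`, `k < m`, satisfy the braid relations, `x (k + 1) = b k * x k * (b k)⁻¹`, `b k` commutes with `x k * x (k + 1)` and with
the other `x l`.
-/

set_option autoImplicit false

namespace Pool.Agent.H98.BR

open Pool.Agent.H98.DT (BS)

variable {G : Type*} [Group G]

/-- braid generators and a family of elements -/
structure XS (m : ℕ) (b x : ℕ → G) : Prop extends BS m b where
  x1 : ∀ k < m, b k * x k = x (k + 1) * b k
  x2 : ∀ k < m, b k * (x k * x (k + 1)) = x k * x (k + 1) * b k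
  x3 : ∀ k < m, ∀ l ≤ m, l ≠ k → l ≠ k + 1 → b k * x l = x l * b k

/-- the conjugates of `s` -/
def sf (s : G) (b : ℕ → G) : ℕ → G
  | 0 => s
  | k + 1 => b k * sf s b k * (b k)⁻¹

theorem sf_zero (s : G) (b : ℕ → G) : sf s b 0 = s := rfl

theorem sf_succ (s : G) (b : ℕ → G) (k : ℕ) : sf s b (k + 1) = b k * sf s b k * (b k)⁻¹ := rfl

theorem xs_of_bs {m : ℕ} {b : ℕ → G} (h : BS m b) {s : G} (hsb : ∀ k, 0 < k → k < m → b k * s = s * b k)
    (hB : 0 < m → b 0 * s * b 0 * s = s * b 0 * s * b 0) : XS m b (sf s b) := by
  have h1 : ∀ k, b k * sf s b k = sf s b (k + 1) * b k := fun k => by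
    rw [sf_succ]
    group
  have h3 : ∀ l, l ≤ m → ∀ k < m, l ≠ k → l ≠ k + 1 → b k * sf s b l = sf s b l * b k := by
    intro l
    induction l using Nat.strong_induction_on with
    | _ l ih =>
      intro hl k hk hlk hlk'
      rcases l with _ | l
      · exact hsb k (by omega) hk
      · by_cases h4 : k + 1 = l
        · obtain rfl := h4
          have h5 := ih k (by omega) (by omega) (k + 1) (by omega) (by omega) (by omega)
          have h6 := h.br k (by omega)
          rw [sf_succ, sf_succ]
          have h7 : (b k)⁻¹ * (b (k + 1))⁻¹ * b k = b (k + 1) * (b k)⁻¹ * (b (k + 1))⁻¹ := by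
            calc (b k)⁻¹ * (b (k + 1))⁻¹ * b k = (b k)⁻¹ * (b (k + 1))⁻¹ * (b k * b (k + 1) * b k) *
                  (b k)⁻¹ * (b (k + 1))⁻¹ := by group
              _ = _ := by
                rw [h6]
                group
          calc b k * (b (k + 1) * (b k * sf s b k * (b k)⁻¹) * (b (k + 1))⁻¹)
              = (b k * b (k + 1) * b k) * sf s b k * (b k)⁻¹ * (b (k + 1))⁻¹ := by group
            _ = b (k + 1) * b k * (b (k + 1) * sf s b k) * (b k)⁻¹ * (b (k + 1))⁻¹ := by
              rw [h6]
              group
            _ = b (k + 1) * b k * sf s b k * (b (k + 1) * (b k)⁻¹ * (b (k + 1))⁻¹) := by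
              rw [h5]
              group
            _ = _ := by
              rw [← h7]
              group
        · have h5 : b k * b l = b l * b k := by
            rcases Nat.lt_or_ge k l with h6 | h6
            · exact h.co k l (by omega) (by omega)
            · exact (h.co l k (by omega) hk).symm
          have c5 : Commute (b k) (b l) := h5
          have c6 : Commute (b k) (sf s b l) := ih l (by omega) (by omega) k hk (by omega) (by omega)
          rw [sf_succ]
          exact ((c5.mul_right c6).mul_right c5.inv_right).eq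
  have hB' : ∀ k < m, b k * sf s b k * b k * sf s b k = sf s b k * b k * sf s b k * b k := by
    intro k
    induction k with
    | zero => exact fun hm => hB hm
    | succ k ih =>
      intro hk
      have h4 := ih (by omega)
      have h5 := h.br k hk
      have h6 := h3 k (by omega) (k + 1) hk (by omega) (by omega)
      have e1 : b (k + 1) = b k * b (k + 1) * b k * (b k * b (k + 1))⁻¹ := by
        rw [h5]
        group
      have e2 : sf s b (k + 1) = b k * b (k + 1) * sf s b k * (b k * b (k + 1))⁻¹ := by
        calc sf s b (k + 1) = b k * (b (k + 1) * sf s b k) * (b (k + 1))⁻¹ * (b k)⁻¹ := by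
              rw [h6, sf_succ]
              group
          _ = _ := by group
      have e3 : ∀ y z : G, (b k * b (k + 1) * y * (b k * b (k + 1))⁻¹) *
          (b k * b (k + 1) * z * (b k * b (k + 1))⁻¹) = b k * b (k + 1) * (y * z) * (b k * b (k + 1))⁻¹ :=
        fun y z => by group
      generalize sf s b (k + 1) = t' at *
      generalize sf s b k = t at *
      generalize b k = c at *
      generalize b (k + 1) = c' at *
      calc c' * t' * c' * t' = (c * c' * c * (c * c')⁻¹) * (c * c' * t * (c * c')⁻¹) *
            (c * c' * c * (c * c')⁻¹) * (c * c' * t * (c * c')⁻¹) := by rw [← e1, ← e2]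
        _ = c * c' * (c * t * c * t) * (c * c')⁻¹ := by rw [e3, e3, e3]
        _ = (c * c' * t * (c * c')⁻¹) * (c * c' * c * (c * c')⁻¹) *
            (c * c' * t * (c * c')⁻¹) * (c * c' * c * (c * c')⁻¹) := by rw [h4, e3, e3, e3]
        _ = _ := by rw [← e1, ← e2]
  refine ⟨h, fun k _ => h1 k, fun k hk => ?_, fun k hk l hl h4 h5 => h3 l hl k hk h4 h5⟩
  have h4 := hB' k hk
  rw [sf_succ]
  generalize sf s b k = t at *
  generalize b k = c at *
  calc c * (t * (c * t * c⁻¹)) = (c * t * c * t) * c⁻¹ := by group
    _ = _ := by
      rw [h4]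
      group

end Pool.Agent.H98.BR
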